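import Mathlib

set_option autoImplicit false

/-!
Gronwall's inequality in both directions of time.
-/

open Set Metric Filter Topology
open scoped NNReal

namespace Pool.Agent.Y789.NS

variable {V : Type*} [NormedAddCommGroup V] [NormedSpace ℝ V]

theorem gron_fwd {a b : ℝ} {L : ℝ≥0} {v : ℝ → V → V} (hv : ∀ t ∈ Icc a b, LipschitzWith L (v t))
    {f g : ℝ → V} (hf : ∀ t ∈ Icc a b, HasDerivWithinAt f (v t (f t)) (Icc a b) t)
    (hg : ∀ t ∈ Icc a b, HasDerivWithinAt g (v t (g t)) (Icc a b) t) {s t : ℝ} (hs : a ≤ s)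
    (hst : s ≤ t) (ht : t ≤ b) :
    dist (f t) (g t) ≤ dist (f s) (g s) * Real.exp (L * (t - s)) := by
  have hsub : Icc s t ⊆ Icc a b := Icc_subset_Icc hs ht
  refine dist_le_of_trajectories_ODE_of_mem (v := v) (s := fun _ => univ) (a := s) (b := t)
    (fun τ hτ => (hv τ (hsub (Ico_subset_Icc_self hτ))).lipschitzOnWith) ?_ ?_
    (fun _ _ => mem_univ _) ?_ ?_ (fun _ _ => mem_univ _) le_rfl t ⟨hst, le_rfl⟩
  · intro τ hτ
    exact ((hf τ (hsub hτ)).continuousWithinAt).mono hsub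
  · intro τ hτ
    have h1 : Icc a b ∈ 𝓝[≥] τ := Icc_mem_nhdsGE_of_mem ⟨hs.trans hτ.1, hτ.2.trans_le ht⟩
    exact (hf τ (hsub (Ico_subset_Icc_self hτ))).mono_of_mem_nhdsWithin h1
  · intro τ hτ
    exact ((hg τ (hsub hτ)).continuousWithinAt).mono hsub
  · intro τ hτ
    have h1 : Icc a b ∈ 𝓝[≥] τ := Icc_mem_nhdsGE_of_mem ⟨hs.trans hτ.1, hτ.2.trans_le ht⟩
    exact (hg τ (hsub (Ico_subset_Icc_self hτ))).mono_of_mem_nhdsWithin h1

theorem gron {a b : ℝ} {L : ℝ≥0} {v : ℝ → V → V} (hv : ∀ t ∈ Icc a b, LipschitzWith L (v t))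
    {f g : ℝ → V} (hf : ∀ t ∈ Icc a b, HasDerivWithinAt f (v t (f t)) (Icc a b) t)
    (hg : ∀ t ∈ Icc a b, HasDerivWithinAt g (v t (g t)) (Icc a b) t) {s t : ℝ} (hs : s ∈ Icc a b)
    (ht : t ∈ Icc a b) :
    dist (f t) (g t) ≤ dist (f s) (g s) * Real.exp (L * |t - s|) := by
  rcases le_total s t with h | h
  · rw [abs_of_nonneg (sub_nonneg.2 h)]
    exact gron_fwd hv hf hg hs.1 h ht.2
  · rw [abs_sub_comm, abs_of_nonneg (sub_nonneg.2 h)]
    have key : ∀ f : ℝ → V, (∀ t ∈ Icc a b, HasDerivWithinAt f (v t (f t)) (Icc a b) t) →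
        ∀ τ ∈ Icc (-b) (-a), HasDerivWithinAt (fun σ => f (-σ)) ((fun τ x => -v (-τ) x) τ (f (-τ)))
          (Icc (-b) (-a)) τ := by
      intro f hf τ hτ
      have h1 : -τ ∈ Icc a b := ⟨by linarith [hτ.2], by linarith [hτ.1]⟩
      have h2 : HasDerivWithinAt (fun σ : ℝ => -σ) (-1) (Icc (-b) (-a)) τ :=
        (hasDerivAt_neg τ).hasDerivWithinAt
      have h3 : MapsTo (fun σ : ℝ => -σ) (Icc (-b) (-a)) (Icc a b) :=
        fun σ hσ => ⟨by linarith [hσ.2], by linarith [hσ.1]⟩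
      have h4 : HasDerivWithinAt (fun σ => f (-σ)) ((-1 : ℝ) • v (-τ) (f (-τ)))
          (Icc (-b) (-a)) τ := HasDerivWithinAt.scomp τ (hf (-τ) h1) h2 h3
      rw [neg_one_smul] at h4
      exact h4
    have hv' : ∀ t ∈ Icc (-b) (-a), LipschitzWith L ((fun τ x => -v (-τ) x) t) := by
      intro t ht
      have h1 : -t ∈ Icc a b := ⟨by linarith [ht.2], by linarith [ht.1]⟩
      exact (hv (-t) h1).neg
    have h5 := gron_fwd hv' (key f hf) (key g hg) (s := -s) (t := -t) (by linarith [hs.2])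
      (by linarith) (by linarith [ht.1])
    simp only [neg_neg] at h5
    have e : -t - -s = s - t := by ring
    rwa [e] at h5

end Pool.Agent.Y789.NS
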