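import Pool.Agent.Y8.Path
import Pool.Agent.Y8.Stm5
import Pool.Agent.Y789.NS.Gron

/-!
Existence of the flow of the mean velocity of a weak solution.
-/

open MeasureTheory Set Metric Filter Topology
open scoped ContDiff NNReal

namespace Pool.Agent.Y789.NS

open H459R3.NS W221.NS Pool.Agent.Y8

/-- The mollified velocity is free of divergence. -/
theorem mo_div {w : V → V} (hw : ContDiff ℝ ∞ w) (hd : ∀ x, ∑ i, pd i (fun y => w y i) x = 0)
    (r : ℝ) (x : V) : ∑ i, pd i (fun y => mo r w y i) x = 0 := by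
  have hw' : ∀ i, ContDiff ℝ ∞ (fun y => w y i) := fun i => contDiff_pi.1 hw i
  have h1 : ∀ i, pd i (fun y => mo r w y i) x
      = ∫ y, th y * pd i (fun z => w z i) (x + r • y) := fun i =>
    _root_.W496.MD.pd_moll (hw' i) r x i
  simp only [h1]
  rw [← integral_finsetSum]
  · have h0 : (fun y => ∑ i, th y * pd i (fun z => w z i) (x + r • y)) = fun _ => 0 := by
      funext y
      rw [← Finset.mul_sum, hd (x + r • y), mul_zero]
    rw [h0, integral_zero]
  · intro i _
    have hfd : Continuous (fderiv ℝ (fun z => w z i)) := (hw' i).continuous_fderiv (by simp)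
    have hthc : Continuous th := _root_.W496.MD.th_smooth.continuous
    have : Continuous (fun y => th y * pd i (fun z => w z i) (x + r • y)) := by
      unfold pd
      exact hthc.mul ((hfd.comp (by fun_prop)).clm_apply continuous_const)
    refine this.integrable_of_hasCompactSupport ?_
    refine HasCompactSupport.intro (isCompact_closedBall (0 : V) 1) ?_
    intro y hy
    simp [_root_.W496.MD.th_zero hy]

theorem t_WFL (hT : S_TCUT) (hA : S_ACX) (hM : S_MPRES) : S_WFL := by
  obtain ⟨B', hB', hMh⟩ := Mh_ex hT hA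
  refine ⟨B', hB', fun E r hr hr1 => ?_⟩
  obtain ⟨C, L, hC, hMh⟩ := hMh E r hr hr1
  set B : ℝ := B' * |E| / √(r ^ 3) + 1 with hBd
  have hB : 0 < B := by positivity
  refine ⟨C + L * B, by positivity, fun T D G u p h t₀ ht₀ => ?_⟩
  have hT0 : 0 < T := ht₀.1.trans ht₀.2
  obtain ⟨Mh, h1, h2, h3, h4⟩ := hMh T D G u p hT0 h
  -- uniform continuity in time
  have hunif : ∀ t ∈ Icc 0 T, ∀ δ > 0, ∃ η > 0, ∀ s ∈ Icc 0 T, |s - t| < η →
      ∀ x, ‖Mh s x - Mh t x‖ ≤ δ := by
    have hKc : Continuous fun t => ∫ τ in (0 : ℝ)..t, K1 G u p τ :=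
      intervalIntegral.continuous_primitive (fun a b => (K1_int h).intervalIntegrable) 0
    intro t ht ε hε
    have h5 := Metric.continuous_iff.1 hKc t (ε / C) (by positivity)
    obtain ⟨δ, hδ, h6⟩ := h5
    refine ⟨δ, hδ, fun s hs hst x => ?_⟩
    have h7 := h6 s (by rw [Real.dist_eq]; exact hst)
    have key : ∀ a ∈ Icc 0 T, ∀ b ∈ Icc 0 T, a ≤ b → ‖Mh b x - Mh a x‖ ≤
        C * |(∫ τ in (0 : ℝ)..b, K1 G u p τ) - ∫ τ in (0 : ℝ)..a, K1 G u p τ| := by
      intro a ha b hb hab
      refine (h2 a ha b hb hab x).trans ?_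
      rw [intervalIntegral.integral_interval_sub_left (K1_int h).intervalIntegrable
        (K1_int h).intervalIntegrable, intervalIntegral.integral_of_le hab,
        integral_Ioc_eq_integral_Ioo]
      exact mul_le_mul_of_nonneg_left (le_abs_self _) hC.le
    rw [Real.dist_eq] at h7
    rcases le_total s t with hle | hle
    · have h8 := key s hs t ht hle
      rw [norm_sub_rev, abs_sub_comm] at h8
      calc ‖Mh s x - Mh t x‖ ≤ _ := h8
        _ ≤ C * (ε / C) := by gcongr
        _ = ε := by field_simp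
    · have h8 := key t ht s hs hle
      calc ‖Mh s x - Mh t x‖ ≤ _ := h8
        _ ≤ C * (ε / C) := by gcongr
        _ = ε := by field_simp
  have hcont : ∀ x, ContinuousOn (fun t => Mh t x) (Icc 0 T) := by
    intro x
    rw [Metric.continuousOn_iff]
    intro t ht ε hε
    obtain ⟨η, hη, h5⟩ := hunif t ht (ε / 2) (by positivity)
    refine ⟨η, hη, fun s hs hst => ?_⟩
    rw [Real.dist_eq] at hst
    have := h5 s hs hst x
    rw [dist_eq_norm]
    linarith
  -- the solutions
  have hsol : ∀ y : V, ∃ X : ℝ → V, X t₀ = y ∧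
      ∀ t ∈ Icc 0 T, HasDerivWithinAt X (Mh t (X t)) (Icc 0 T) t := by
    intro y
    have hPL : IsPicardLindelof Mh (⟨t₀, ⟨ht₀.1.le, ht₀.2.le⟩⟩ : Icc 0 T) y
        (⟨B, hB.le⟩ * ⟨T, hT0.le⟩) 0 ⟨B, hB.le⟩ L := by
      refine ⟨fun t ht => (h3 t ht).lipschitzOnWith, fun y _ => hcont y,
        fun t ht y _ => h4 t ht y, ?_⟩
      simp only [sub_zero, NNReal.coe_zero]
      have h5 : max (T - t₀) t₀ ≤ T := max_le (by linarith [ht₀.1]) ht₀.2.le
      exact mul_le_mul_of_nonneg_left h5 hB.le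
    obtain ⟨X, hX0, hX⟩ := hPL.exists_eq_forall_mem_Icc_hasDerivWithinAt₀
    exact ⟨X, hX0, hX⟩
  choose X hX0 hX using hsol
  have hX1 : ∀ y, ∀ t ∈ Ioo 0 T, HasDerivAt (X y) (Mh t (X y t)) t := fun y t ht =>
    (hX y t (Ioo_subset_Icc_self ht)).hasDerivAt (Icc_mem_nhds ht.1 ht.2)
  have hlip : ∀ y, ∀ s ∈ Icc 0 T, ∀ t ∈ Icc 0 T, ‖X y t - X y s‖ ≤ B * |t - s| := by
    intro y s hs t ht
    have h5 := Convex.norm_image_sub_le_of_norm_hasDerivWithin_le (f := X y) (s := Icc 0 T)
      (C := B) (hX y) (fun x hx => h4 x hx _) (convex_Icc 0 T) hs ht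
    rwa [Real.norm_eq_abs] at h5
  refine ⟨fun t y => X y t, fun t y => Mh t (X y t), hX0, fun y => ?_, ?_, ?_⟩
  · refine ⟨hX1 y, fun t ht => by rw [h1 t ht],
      fun t ht => h4 t (Ioo_subset_Icc_self ht) _, ?_, ?_⟩
    · intro s hs t ht hst
      have hlip' : ‖X y t - X y s‖ ≤ B * (t - s) := by
        have h5 := hlip y s (Ioo_subset_Icc_self hs) t (Ioo_subset_Icc_self ht)
        rwa [abs_of_nonneg (sub_nonneg.2 hst)] at h5
      have h6 := h2 s (Ioo_subset_Icc_self hs) t (Ioo_subset_Icc_self ht) hst (X y t)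
      have h7 := (h3 s (Ioo_subset_Icc_self hs)).dist_le_mul (X y t) (X y s)
      rw [dist_eq_norm, dist_eq_norm] at h7
      have h8 := K1_low h hs.1.le hst ht.2.le
      calc ‖Mh t (X y t) - Mh s (X y s)‖
          = ‖(Mh t (X y t) - Mh s (X y t)) + (Mh s (X y t) - Mh s (X y s))‖ := by
            congr 1
            abel
        _ ≤ ‖Mh t (X y t) - Mh s (X y t)‖ + ‖Mh s (X y t) - Mh s (X y s)‖ := norm_add_le _ _
        _ ≤ C * (∫ τ in Ioo s t, K1 G u p τ) + L * (B * (t - s)) := by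
            refine add_le_add h6 (h7.trans ?_)
            gcongr
        _ ≤ _ := by
            have : (L : ℝ) * (B * (t - s)) ≤ L * (B * ∫ τ in Ioo s t, K1 G u p τ) := by gcongr
            linarith
    · intro t ht
      obtain ⟨a, b, hab, hsub⟩ := nb h.openG ht
      obtain ⟨a', ha1, ha2⟩ := exists_between hab.1
      obtain ⟨b', hb1, hb2⟩ := exists_between hab.2
      have hI : Icc a' b' ⊆ G := fun s hs => hsub ⟨ha1.trans_le hs.1, hs.2.trans_lt hb2⟩
      have hMs : ContDiffOn ℝ ∞ (Function.uncurry Mh) (Icc a' b' ×ˢ univ) := by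
        refine ((mol_joint h.openG h.smooth_u r).mono (prod_mono hI subset_rfl)).congr ?_
        intro z hz
        show Mh z.1 z.2 = _
        rw [h1 z.1 (hI hz.1)]
      have hsm : ContDiffOn ℝ ((⊤ : ℕ∞) : WithTop ℕ∞) (X y) (Icc a' b') :=
        ODE.contDiffOn_enat_Icc_of_hasDerivWithinAt (n := ⊤) (u := univ) hMs
          (fun s hs => (hX1 y s (h.subG (hI hs))).hasDerivWithinAt) (fun _ _ => trivial)
      exact ((hsm t ⟨ha2.le, hb1.le⟩).contDiffAt (Icc_mem_nhds ha2 hb1)).contDiffWithinAt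
  · -- joint continuity
    intro z hz
    have hz1 : z.1 ∈ Icc 0 T := Ioo_subset_Icc_self hz.1
    rw [Metric.continuousWithinAt_iff]
    intro ε hε
    set M : ℝ := Real.exp (L * T) with hMd
    have hM0 : 0 < M := Real.exp_pos _
    refine ⟨min (ε / (4 * M)) (ε / (4 * B)), by positivity, ?_⟩
    intro w hw hwz
    have hw1 : w.1 ∈ Icc 0 T := Ioo_subset_Icc_self hw.1
    rw [Prod.dist_eq, max_lt_iff] at hwz
    have h5 : dist w.1 z.1 < ε / (4 * B) := hwz.1.trans_le (min_le_right _ _)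
    have h6 : dist w.2 z.2 < ε / (4 * M) := hwz.2.trans_le (min_le_left _ _)
    have h7 : dist (X w.2 w.1) (X z.2 w.1) ≤ dist w.2 z.2 * M := by
      have h8 := gron (v := Mh) h3 (hX w.2) (hX z.2) (Ioo_subset_Icc_self ht₀) hw1
      rw [hX0, hX0] at h8
      refine h8.trans (mul_le_mul_of_nonneg_left ?_ dist_nonneg)
      apply Real.exp_le_exp.2
      refine mul_le_mul_of_nonneg_left ?_ L.2
      rw [abs_le]
      constructor <;> linarith [hw1.1, hw1.2, ht₀.1, ht₀.2]
    have h8 : dist (X z.2 w.1) (X z.2 z.1) ≤ B * dist w.1 z.1 := by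
      rw [dist_eq_norm, Real.dist_eq]
      exact hlip z.2 z.1 hz1 w.1 hw1
    calc dist (X w.2 w.1) (X z.2 z.1)
        ≤ dist (X w.2 w.1) (X z.2 w.1) + dist (X z.2 w.1) (X z.2 z.1) := dist_triangle _ _ _
      _ ≤ dist w.2 z.2 * M + B * dist w.1 z.1 := add_le_add h7 h8
      _ ≤ ε / (4 * M) * M + B * (ε / (4 * B)) := by gcongr
      _ = ε / 2 := by field_simp; ring
      _ < ε := by linarith
  · -- measure preservation
    have hcl : Ioo 0 T ⊆ closure G := by
      intro t ht
      exact closure_mono inter_subset_right (dense_G hT0 h.fullG (Ioo_subset_Icc_self ht))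
    refine hM T B L G Mh hT0 h.subG hcl ?_ ?_ ?_ (fun t y => X y t) t₀ ht₀ hX0 ?_
    · intro t ht
      have hsm : ContDiff ℝ ∞ (mo r (u t)) := by
        have h5 := mol_joint h.openG h.smooth_u r
        have h6 : ContDiffOn ℝ ∞ (fun x : V => (t, x)) univ := (contDiff_prodMk_right t).contDiffOn
        have h7 := h5.comp h6 (fun x _ => ⟨ht, mem_univ x⟩)
        exact contDiffOn_univ.1 h7
      rw [h1 t ht]
      exact ⟨hsm.of_le (by simp), mo_div (h.spv ht).1 (h.divfree t ht) r⟩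
    · intro t ht
      exact ⟨h3 t (Ioo_subset_Icc_self ht), h4 t (Ioo_subset_Icc_self ht)⟩
    · intro t ht δ hδ
      obtain ⟨η, hη, h5⟩ := hunif t (Ioo_subset_Icc_self ht) δ hδ
      exact ⟨η, hη, fun s hs hst x => h5 s (Ioo_subset_Icc_self hs) hst x⟩
    · intro y t ht
      exact hX1 y t ht

end Pool.Agent.Y789.NS
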